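import Pool.Agent.FpOrd.Inv

/-!
# MP_323ac4_an, Q1: ergodic `F_p^ω`-systems of order `k` are translational, of bounded degree

For every prime `p` and every `k` there is `C` such that every ergodic measure preserving
`F_p^ω`-system of order `k` on a standard Borel probability space is isomorphic to a translational
system of degree `C`. The proof does not use the inverse theorem of Bergelson, Tao and Ziegler; it
reproves what is needed of it (with worse bounds), by the induction `order_translational`.
-/

set_option autoImplicit false
open MeasureTheory Pool.Agent.FpTrans

namespace Pool.Agent.Results.MP_323ac4_an.OrderTranslational

universe u

/-- Q1 of the problem, in the affirmative: for every prime `p` and every `k` there is a number `C`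
such that every ergodic `F_p^ω`-system of order `k` is a translational system of degree `C`. -/
theorem result (p k : ℕ) [Fact p.Prime] :
    ∃ C : ℕ, ∀ (X : Type u) [MeasurableSpace X] [StandardBorelSpace X] (μ : Measure X)
      [IsProbabilityMeasure μ] (T : Fpω p → X → X),
      IsAction μ T → IsErgodic μ T → IsOrder μ T k → IsTranslational μ T C :=
  order_translational.{u} p k

end Pool.Agent.Results.MP_323ac4_an.OrderTranslational
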